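import Pool.Agent.K4W.StmtsW

/-!
# Squad K4W, row WEX: `S_r` as a sum over the field with `p ^ r` elements
-/

set_option autoImplicit false

open Polynomial

namespace Pool.Agent.K4W.H14

/-- `lam` of the constant polynomial `1`. -/
theorem lam_one (h1 : WmuStmt) (K : Type) [Field K] (A B : K) : lam A B (1 : K[X]) = 0 := by
  have h := h1 K A B 1 1 monic_one monic_one
  rw [mul_one] at h
  exact (add_eq_left.mp h.symm)

/-- `lam` of a power. -/
theorem lam_pow (h1 : WmuStmt) (K : Type) [Field K] (A B : K) (P : K[X]) (hP : P.Monic) (k : ℕ) :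
    lam A B (P ^ k) = (k : K) * lam A B P := by
  induction k with
  | zero => simp [lam_one h1 K A B]
  | succ k ih =>
    rw [pow_succ, h1 K A B _ _ (hP.pow k) hP, ih]
    push_cast
    ring

/-- The value of the character at the trace. -/
theorem key (h1 : WmuStmt) (h2 : WlpStmt) (h3 : WmpStmt) (h5 : WfbStmt) (p : ℕ) [Fact p.Prime]
    (K : Type) [Field K] [Fintype K] [Algebra (ZMod p) K] (r : ℕ) (A B : ZMod p)
    (hr : Module.finrank (ZMod p) K = r) (hr1 : 1 ≤ r) (x : K) :
    (minpoly (ZMod p) x).natDegree ∣ r ∧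
    ZMod.stdAddChar (Algebra.trace (ZMod p) K
      (algebraMap (ZMod p) K A * x ^ 4 + algebraMap (ZMod p) K B * x)) =
    chi p A B (minpoly (ZMod p) x) ^ (r / (minpoly (ZMod p) x).natDegree) := by
  obtain ⟨k, hk, hprod⟩ := h5 p K r hr x
  have hint : IsIntegral (ZMod p) x := Algebra.IsIntegral.isIntegral x
  have hmon : (minpoly (ZMod p) x).Monic := minpoly.monic hint
  have hdeg : 0 < (minpoly (ZMod p) x).natDegree := minpoly.natDegree_pos hint
  have hkr : r / (minpoly (ZMod p) x).natDegree = k := by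
    rw [hk]; exact Nat.mul_div_cancel k hdeg
  refine ⟨⟨k, by rw [hk, mul_comm]⟩, ?_⟩
  have : CharP K p := charP_of_injective_algebraMap (algebraMap (ZMod p) K).injective p
  have htr : algebraMap (ZMod p) K (Algebra.trace (ZMod p) K
      (algebraMap (ZMod p) K A * x ^ 4 + algebraMap (ZMod p) K B * x)) =
      algebraMap (ZMod p) K ((k : ZMod p) * lam A B (minpoly (ZMod p) x)) := by
    rw [FiniteField.algebraMap_trace_eq_sum_pow, hr, ← lam_pow h1 (ZMod p) A B _ hmon k,
      ← h3 (ZMod p) K (algebraMap (ZMod p) K) A B, hprod, h2 K]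
    refine Finset.sum_congr rfl fun i _ => ?_
    rw [Nat.card_zmod, add_pow_char_pow, mul_pow, mul_pow, ← map_pow, ← map_pow,
      ZMod.pow_card_pow, ZMod.pow_card_pow]
    congr 2
    rw [← pow_mul, ← pow_mul, mul_comm]
  have htr' := (algebraMap (ZMod p) K).injective htr
  rw [htr', hkr, chi]
  rw [← AddChar.map_nsmul_eq_pow, nsmul_eq_mul]

open Classical in
/-- **WEX**. -/
theorem wex (h1 : WmuStmt) (h2 : WlpStmt) (h3 : WmpStmt) (h4 : WmnStmt) (h5 : WfbStmt)
    (h6 : WrtStmt) : WexStmt := by
  intro p _ K _ _ _ r A B hr hr1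
  unfold Sk Sr
  have hmaps : ∀ x ∈ (Finset.univ : Finset K),
      (minpoly (ZMod p) x).natDegree ∈ r.divisors := by
    intro x _
    exact Nat.mem_divisors.mpr ⟨(key h1 h2 h3 h5 p K r A B hr hr1 x).1, by omega⟩
  rw [← Finset.sum_fiberwise_of_maps_to hmaps]
  refine Finset.sum_congr rfl fun e he => ?_
  have hedvd : e ∣ r := Nat.dvd_of_mem_divisors he
  have hmaps2 : ∀ x ∈ (Finset.univ : Finset K).filter
      (fun x => (minpoly (ZMod p) x).natDegree = e), minpoly (ZMod p) x ∈ irr p e := by
    intro x hx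
    rw [Finset.mem_filter] at hx
    have hint : IsIntegral (ZMod p) x := Algebra.IsIntegral.isIntegral x
    unfold irr
    rw [Finset.mem_filter, h4 p e]
    exact ⟨⟨minpoly.monic hint, hx.2⟩, minpoly.irreducible hint⟩
  rw [← Finset.sum_fiberwise_of_maps_to hmaps2]
  refine Finset.sum_congr rfl fun P hP => ?_
  have hPdeg : P.natDegree = e := by
    unfold irr at hP
    rw [Finset.mem_filter, h4 p e] at hP
    exact hP.1.2
  have hfil : ((Finset.univ : Finset K).filter
      (fun x => (minpoly (ZMod p) x).natDegree = e)).filter (fun x => minpoly (ZMod p) x = P) =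
      (Finset.univ : Finset K).filter (fun x => minpoly (ZMod p) x = P) := by
    ext x
    simp only [Finset.mem_filter, Finset.mem_univ, true_and]
    constructor
    · exact fun h => h.2
    · intro h
      exact ⟨by rw [h, hPdeg], h⟩
  rw [hfil]
  have hconst : ∀ x ∈ (Finset.univ : Finset K).filter (fun x => minpoly (ZMod p) x = P),
      ZMod.stdAddChar (Algebra.trace (ZMod p) K
        (algebraMap (ZMod p) K A * x ^ 4 + algebraMap (ZMod p) K B * x)) =
      chi p A B P ^ (r / e) := by
    intro x hx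
    rw [Finset.mem_filter] at hx
    rw [(key h1 h2 h3 h5 p K r A B hr hr1 x).2, hx.2, hPdeg]
  rw [Finset.sum_congr rfl hconst, Finset.sum_const, h6 p K r e hr hr1 hedvd P hP, nsmul_eq_mul]

end Pool.Agent.K4W.H14
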