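import Pool.Agent.K4W.StmtsW

/-!
# Squad K4W, row WPT: the upper bound for the number of points (Stepanov)
-/

set_option autoImplicit false

open Polynomial

namespace Pool.Agent.K4W.H14

/-- The degree of `∑_{i < m} f ^ (p ^ i)`. -/
theorem natDegree_g (p m : ℕ) (K : Type) [Field K] (f : K[X]) (hp : 5 ≤ p) (hm : 1 ≤ m)
    (hf : f.natDegree = 4) :
    (∑ i ∈ Finset.range m, f ^ (p ^ i)).natDegree = 4 * p ^ (m - 1) := by
  obtain ⟨n, rfl⟩ : ∃ n, m = n + 1 := ⟨m - 1, by omega⟩
  rw [Finset.sum_range_succ, Nat.add_sub_cancel]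
  have hd : ∀ i, (f ^ (p ^ i)).natDegree = 4 * p ^ i := by
    intro i
    rw [natDegree_pow, hf, mul_comm]
  have hpn : 0 < p ^ n := Nat.pow_pos (by omega)
  have hlt : (∑ i ∈ Finset.range n, f ^ (p ^ i)).natDegree < (f ^ (p ^ n)).natDegree := by
    rw [hd n]
    have hle : (∑ i ∈ Finset.range n, f ^ (p ^ i)).natDegree ≤ 4 * p ^ n - 1 := by
      refine natDegree_sum_le_of_forall_le _ _ fun i hi => ?_
      rw [hd i]
      have hi' : i < n := Finset.mem_range.mp hi
      have : p ^ i < p ^ n := Nat.pow_lt_pow_right (by omega) hi'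
      omega
    omega
  rw [natDegree_add_eq_right_of_natDegree_lt hlt, hd n]

open Classical in
/-- **WPT**. -/
theorem wpt (h1 : WchStmt) (h2 : WdbStmt) (h3 : WlsStmt) : WptStmt := by
  intro p m K _ _ _ f c hp hp5 hm hcard hf
  have hfact : Fact p.Prime := ⟨hp⟩
  obtain ⟨I, J, hIJ⟩ := h1 p hp hp5
  set g : K[X] := ∑ i ∈ Finset.range m, f ^ (p ^ i) with hg
  have hgd : g.natDegree = 4 * p ^ (m - 1) := natDegree_g p m K f hp5 hm hf
  obtain ⟨a, hadeg, hane, hazero⟩ := h3 p m K g c I J hp hp5 hm hIJ hgd.le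
  obtain ⟨hG0, hGd⟩ := h2 p m (p ^ m + 12 * p) K g I J a hp hm hIJ hgd hadeg hane
  set G : K[X] := ∑ w ∈ Finset.Icc (4 * p) (p ^ m + 12 * p),
    a w * X ^ (p ^ m * I w) * g ^ J w with hG
  have hroot : ∀ x : K, (∑ i ∈ Finset.range (2 * m), (f.eval x) ^ (p ^ i) = c) →
      G.eval x = 0 := by
    intro x hx
    have hgx : g.eval x = ∑ i ∈ Finset.range m, (f.eval x) ^ (p ^ i) := by
      rw [hg, eval_finsetSum]
      simp only [eval_pow]
    have hgxp : (g.eval x) ^ (p ^ m) = c - g.eval x := by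
      rw [eq_sub_iff_add_eq, ← hx, two_mul, Finset.sum_range_add, hgx, sum_pow_char_pow, add_comm]
      congr 1
      refine Finset.sum_congr rfl fun i _ => ?_
      rw [← pow_mul, ← pow_add, add_comm]
    have hxp : x ^ ((p ^ m) ^ 2) = x := by
      rw [← hcard]
      exact FiniteField.pow_card x
    have hpow : (G.eval x) ^ (p ^ m) = 0 := by
      have hz := congrArg (eval x) hazero
      rw [eval_zero, eval_finsetSum] at hz
      rw [← hz, hG, eval_finsetSum, sum_pow_char_pow]
      refine Finset.sum_congr rfl fun w _ => ?_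
      simp only [eval_mul, eval_pow, eval_X, eval_sub, eval_C]
      rw [mul_pow, mul_pow, ← hgxp]
      congr 1
      · congr 1
        calc (x ^ (p ^ m * I w)) ^ p ^ m = (x ^ ((p ^ m) ^ 2)) ^ I w := by
              rw [← pow_mul, ← pow_mul]; congr 1; ring
          _ = x ^ I w := by rw [hxp]
      · rw [← pow_mul, ← pow_mul, mul_comm]
    exact pow_eq_zero_iff (Nat.pow_pos (by omega)).ne' |>.mp hpow
  have hsub : (Finset.univ : Finset K).filter
      (fun x => ∑ i ∈ Finset.range (2 * m), (f.eval x) ^ (p ^ i) = c) ⊆ G.roots.toFinset := by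
    intro x hx
    rw [Finset.mem_filter] at hx
    rw [Multiset.mem_toFinset, mem_roots hG0]
    exact hroot x hx.2
  have hcardle : ((Finset.univ : Finset K).filter
      (fun x => ∑ i ∈ Finset.range (2 * m), (f.eval x) ^ (p ^ i) = c)).card ≤
      p ^ (m - 1) * (p ^ m + 12 * p + 1) := by
    calc _ ≤ G.roots.toFinset.card := Finset.card_le_card hsub
      _ ≤ Multiset.card G.roots := Multiset.toFinset_card_le _
      _ ≤ G.natDegree := card_roots' G
      _ ≤ _ := hGd.le
  have hpm : p * p ^ (m - 1) = p ^ m := by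
    rw [← pow_succ']
    congr 1
    omega
  calc p * ((Finset.univ : Finset K).filter
      (fun x => ∑ i ∈ Finset.range (2 * m), (f.eval x) ^ (p ^ i) = c)).card
      ≤ p * (p ^ (m - 1) * (p ^ m + 12 * p + 1)) := Nat.mul_le_mul_left _ hcardle
    _ = p ^ m * (p ^ m + 12 * p + 1) := by rw [← mul_assoc, hpm]
    _ ≤ (p ^ m) ^ 2 + 13 * p * p ^ m := by nlinarith [Nat.zero_le (p ^ m)]

end Pool.Agent.K4W.H14
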